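import Pool.Agent.Helper30.LQ.St
import Pool.Agent.Helper48.BK.StD
import Pool.Agent.Helper15.AB.M_MT

/-!
# Project LQ, module MR4: Mertens modulo 3, upper bound for the class 1 (from Siegel-Walfisz and Mertens)

The difference of the sums over the two classes is bounded by Abel summation, the sum of the two is given by Mertens.
-/

set_option autoImplicit false

noncomputable section

namespace Pool.Agent.Helper85.LQ

open Finset
open Pool.Agent.Helper15.AB (StMT)
open Pool.Agent.Helper48.BK (StSW th)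
open Pool.Agent.Helper30.LQ

/-- the weight -/
private def w (n : ℕ) : ℝ := 1 / ((n : ℝ) * Real.log n)

/-- the two classes with signs -/
private def f (n : ℕ) : ℝ := (if n % 3 = 1 then th n else 0) - (if n % 3 = 2 then th n else 0)

private def D (N : ℕ) : ℝ := ∑ n ∈ Ioc 0 N, f n

private def T (N : ℕ) : ℝ := ∑ n ∈ Ioc 0 N, f n * w n

private lemma D_succ (N : ℕ) : D (N + 1) = D N + f (N + 1) := by
  unfold D
  rw [← Finset.insert_Ioc_right_eq_Ioc_add_one (Nat.zero_le N), Finset.sum_insert (by simp)]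
  ring

private lemma T_succ (N : ℕ) : T (N + 1) = T N + f (N + 1) * w (N + 1) := by
  unfold T
  rw [← Finset.insert_Ioc_right_eq_Ioc_add_one (Nat.zero_le N), Finset.sum_insert (by simp)]
  ring

private lemma D_eq (N : ℕ) : D N = ∑ n ∈ (Ioc 0 N).filter (fun n => n ≡ 1 [MOD 3]), th n -
    ∑ n ∈ (Ioc 0 N).filter (fun n => n ≡ 2 [MOD 3]), th n := by
  unfold D f
  rw [Finset.sum_sub_distrib, Finset.sum_filter, Finset.sum_filter]
  rfl

/-- the bound of Siegel and Walfisz -/
private lemma D_le (hS : StSW) : ∃ n₀ : ℕ, 3 ≤ n₀ ∧ ∀ N : ℕ, n₀ ≤ N →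
    |D N| ≤ 2 * (N / Real.log N ^ 2) := by
  obtain ⟨x₀, hx⟩ := hS 2 1
  refine ⟨max x₀ 27, by omega, fun N hN => ?_⟩
  have h27 : 27 ≤ N := le_trans (le_max_right _ _) hN
  have hlog : (3 : ℝ) ≤ Real.log N ^ 1 := by
    rw [pow_one]
    have h1 : Real.log (27 : ℝ) ≤ Real.log N := Real.log_le_log (by norm_num) (by exact_mod_cast h27)
    have h2 : (3 : ℝ) ≤ Real.log 27 := by
      rw [Real.le_log_iff_exp_le (by norm_num)]
      have h3 : Real.exp 3 = Real.exp 1 ^ 3 := by rw [← Real.exp_nat_mul]; norm_num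
      rw [h3]
      have := Real.exp_one_lt_d9
      calc Real.exp 1 ^ 3 ≤ 3 ^ 3 := by
            gcongr
            linarith
        _ = 27 := by norm_num
    linarith
  have a1 := hx N N 3 1 (le_trans (le_max_left _ _) hN) le_rfl (by norm_num) (by exact_mod_cast hlog)
  have a2 := hx N N 3 2 (le_trans (le_max_left _ _) hN) le_rfl (by norm_num) (by exact_mod_cast hlog)
  rw [if_pos (by decide)] at a1 a2
  rw [D_eq, abs_le]
  rw [abs_le] at a1 a2
  constructor <;> linarith [a1.1, a1.2, a2.1, a2.2]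

private lemma w_diff {n : ℕ} (hn : 3 ≤ n) : 0 ≤ w n - w (n + 1) ∧
    w n - w (n + 1) ≤ 2 / ((n : ℝ) * ((n : ℝ) + 1) * Real.log n) := by
  have hn' : (3 : ℝ) ≤ n := by exact_mod_cast hn
  have hn0 : (0 : ℝ) < n := by linarith
  have l1 : (1 : ℝ) ≤ Real.log n := by
    rw [Real.le_log_iff_exp_le hn0]
    have := Real.exp_one_lt_d9
    linarith
  have l2 : Real.log n ≤ Real.log ((n : ℝ) + 1) := Real.log_le_log hn0 (by linarith)
  have l3 : Real.log ((n : ℝ) + 1) - Real.log n ≤ 1 / n := by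
    rw [← Real.log_div (by linarith) hn0.ne']
    have := Real.log_le_sub_one_of_pos (show (0 : ℝ) < ((n : ℝ) + 1) / n by positivity)
    have e : ((n : ℝ) + 1) / n - 1 = 1 / n := by field_simp; ring
    linarith
  have e : w n - w (n + 1) = (((n : ℝ) + 1) * Real.log ((n : ℝ) + 1) - n * Real.log n) /
      (n * ((n : ℝ) + 1) * Real.log n * Real.log ((n : ℝ) + 1)) := by
    unfold w
    push_cast
    have h1 : Real.log (n : ℝ) ≠ 0 := by linarith
    have h2 : Real.log ((n : ℝ) + 1) ≠ 0 := by linarith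
    have h3 : (n : ℝ) + 1 ≠ 0 := by linarith
    field_simp
  have hL : (0 : ℝ) < Real.log ((n : ℝ) + 1) := by linarith
  have hl : (0 : ℝ) < Real.log n := by linarith
  have hnum : ((n : ℝ) + 1) * Real.log ((n : ℝ) + 1) - n * Real.log n ≤
      2 * Real.log ((n : ℝ) + 1) := by
    have h4 : (n : ℝ) * (Real.log ((n : ℝ) + 1) - Real.log n) ≤ 1 := by
      calc (n : ℝ) * (Real.log ((n : ℝ) + 1) - Real.log n) ≤ n * (1 / n) := by gcongr
        _ = 1 := by field_simp
    nlinarith
  have hnum0 : 0 ≤ ((n : ℝ) + 1) * Real.log ((n : ℝ) + 1) - n * Real.log n := by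
    nlinarith
  rw [e]
  refine ⟨by positivity, ?_⟩
  rw [div_le_div_iff₀ (by positivity) (by positivity)]
  calc (((n : ℝ) + 1) * Real.log ((n : ℝ) + 1) - n * Real.log n) * (n * ((n : ℝ) + 1) * Real.log n) ≤
        (2 * Real.log ((n : ℝ) + 1)) * (n * ((n : ℝ) + 1) * Real.log n) := by gcongr
    _ = _ := by ring

/-- one step -/
private lemma step {n : ℕ} (hn : 3 ≤ n) {d : ℝ} (hd : |d| ≤ 2 * (n / Real.log n ^ 2)) :
    |d * (w n - w (n + 1))| ≤ 8 * (1 / Real.log n - 1 / Real.log ((n : ℝ) + 1)) := by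
  have hn' : (3 : ℝ) ≤ n := by exact_mod_cast hn
  have hn0 : (0 : ℝ) < n := by linarith
  have l1 : (1 : ℝ) ≤ Real.log n := by
    rw [Real.le_log_iff_exp_le hn0]
    have := Real.exp_one_lt_d9
    linarith
  have l2 : Real.log n ≤ Real.log ((n : ℝ) + 1) := Real.log_le_log hn0 (by linarith)
  have l4 : Real.log ((n : ℝ) + 1) ≤ 2 * Real.log n := by
    have : 2 * Real.log (n : ℝ) = Real.log ((n : ℝ) ^ 2) := by rw [Real.log_pow]; norm_num
    rw [this]
    exact Real.log_le_log (by linarith) (by nlinarith)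
  have l5 : 1 / ((n : ℝ) + 1) ≤ Real.log ((n : ℝ) + 1) - Real.log n := by
    have h := Real.log_le_sub_one_of_pos (show (0 : ℝ) < (n : ℝ) / ((n : ℝ) + 1) by positivity)
    rw [Real.log_div hn0.ne' (by linarith)] at h
    have e : (n : ℝ) / ((n : ℝ) + 1) - 1 = -(1 / ((n : ℝ) + 1)) := by
      have : (n : ℝ) + 1 ≠ 0 := by linarith
      field_simp
      ring
    rw [e] at h
    linarith
  obtain ⟨w1, w2⟩ := w_diff hn
  have hl : (0 : ℝ) < Real.log n := by linarith
  have hL : (0 : ℝ) < Real.log ((n : ℝ) + 1) := by linarith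
  rw [abs_mul, abs_of_nonneg w1]
  have e1 : 1 / Real.log n - 1 / Real.log ((n : ℝ) + 1) =
      (Real.log ((n : ℝ) + 1) - Real.log n) / (Real.log n * Real.log ((n : ℝ) + 1)) := by
    field_simp
  rw [e1]
  calc |d| * (w n - w (n + 1)) ≤ (2 * (n / Real.log n ^ 2)) *
        (2 / ((n : ℝ) * ((n : ℝ) + 1) * Real.log n)) := by gcongr
    _ = 4 * (1 / ((n : ℝ) + 1)) / (Real.log n ^ 3) := by
        have : (n : ℝ) + 1 ≠ 0 := by linarith
        field_simp
        try ring
    _ ≤ 4 * (Real.log ((n : ℝ) + 1) - Real.log n) / (Real.log n ^ 2) := by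
        have k1 : Real.log n ^ 2 ≤ Real.log n ^ 3 := by
          apply pow_le_pow_right₀ l1 (by norm_num)
        gcongr
    _ ≤ 8 * ((Real.log ((n : ℝ) + 1) - Real.log n) / (Real.log n * Real.log ((n : ℝ) + 1))) := by
        have k2 : 0 ≤ Real.log ((n : ℝ) + 1) - Real.log n := by linarith
        rw [div_le_iff₀ (by positivity)]
        have k3 : 8 * ((Real.log ((n : ℝ) + 1) - Real.log n) / (Real.log n * Real.log ((n : ℝ) + 1))) *
            Real.log n ^ 2 = 8 * (Real.log ((n : ℝ) + 1) - Real.log n) *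
            (Real.log n / Real.log ((n : ℝ) + 1)) := by
          field_simp
        rw [k3]
        have k4 : (1 : ℝ) / 2 ≤ Real.log n / Real.log ((n : ℝ) + 1) := by
          rw [le_div_iff₀ hL]
          linarith
        nlinarith

/-- the difference of the two sums is bounded -/
private lemma T_bdd (hS : StSW) : ∃ C : ℝ, 0 < C ∧ ∀ N : ℕ, |T N| ≤ C := by
  obtain ⟨n₀, h3, hD⟩ := D_le hS
  have key : ∀ N : ℕ, n₀ ≤ N → |T N - D N * w N| ≤ |T n₀ - D n₀ * w n₀| +
      8 * (1 / Real.log n₀ - 1 / Real.log N) := by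
    intro N hN
    induction N, hN using Nat.le_induction with
    | base => simp
    | succ N hN ih =>
      have hN3 : 3 ≤ N := le_trans h3 hN
      have e : T (N + 1) - D (N + 1) * w (N + 1) =
          (T N - D N * w N) + D N * (w N - w (N + 1)) := by
        rw [T_succ, D_succ]; ring
      rw [e]
      have s := step hN3 (hD N hN)
      have := abs_add_le (T N - D N * w N) (D N * (w N - w (N + 1)))
      push_cast
      linarith
  refine ⟨|T n₀ - D n₀ * w n₀| + 8 / Real.log n₀ + 2 + ∑ n ∈ Ioc 0 n₀, |f n * w n|, ?_, fun N => ?_⟩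
  · have h1 : (0 : ℝ) ≤ 8 / Real.log n₀ := by
      apply div_nonneg (by norm_num) (Real.log_natCast_nonneg _)
    have h2 : (0 : ℝ) ≤ ∑ n ∈ Ioc 0 n₀, |f n * w n| := Finset.sum_nonneg fun _ _ => abs_nonneg _
    have h3 := abs_nonneg (T n₀ - D n₀ * w n₀)
    linarith
  have p1 : (0 : ℝ) ≤ 8 / Real.log n₀ := by
    apply div_nonneg (by norm_num) (Real.log_natCast_nonneg _)
  have p2 : (0 : ℝ) ≤ ∑ n ∈ Ioc 0 n₀, |f n * w n| := Finset.sum_nonneg fun _ _ => abs_nonneg _
  have p3 := abs_nonneg (T n₀ - D n₀ * w n₀)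
  rcases le_total N n₀ with h | h
  · have : |T N| ≤ ∑ n ∈ Ioc 0 n₀, |f n * w n| := by
      unfold T
      refine le_trans (Finset.abs_sum_le_sum_abs _ _) ?_
      exact Finset.sum_le_sum_of_subset_of_nonneg (Finset.Ioc_subset_Ioc_right h)
        fun _ _ _ => abs_nonneg _
    linarith
  · have k := key N h
    have hN3 : 3 ≤ N := le_trans h3 h
    have hn' : (3 : ℝ) ≤ N := by exact_mod_cast hN3
    have hn0 : (0 : ℝ) < N := by linarith
    have l1 : (1 : ℝ) ≤ Real.log N := by
      rw [Real.le_log_iff_exp_le hn0]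
      have := Real.exp_one_lt_d9
      linarith
    have hl : (0 : ℝ) < Real.log N := by linarith
    have w0 : 0 ≤ w N := by unfold w; positivity
    have d : |D N * w N| ≤ 2 := by
      rw [abs_mul, abs_of_nonneg w0]
      calc |D N| * w N ≤ (2 * (N / Real.log N ^ 2)) * w N := by
            gcongr
            exact hD N h
        _ = 2 / Real.log N ^ 3 := by
            unfold w
            field_simp
        _ ≤ 2 := by
            rw [div_le_iff₀ (by positivity)]
            have : (1 : ℝ) ≤ Real.log N ^ 3 := one_le_pow₀ l1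
            linarith
    have q : (0 : ℝ) ≤ 1 / Real.log N := by positivity
    have e : T N = (T N - D N * w N) + D N * w N := by ring
    have s := abs_add_le (T N - D N * w N) (D N * w N)
    rw [← e] at s
    have r : 8 * (1 / Real.log (n₀ : ℝ) - 1 / Real.log N) ≤ 8 / Real.log n₀ := by
      have : 8 / Real.log (n₀ : ℝ) = 8 * (1 / Real.log n₀) := by ring
      rw [this]
      linarith
    linarith

private lemma T_eq (N : ℕ) : T N = ∑ l ∈ (Icc 1 N).filter (fun l => l.Prime ∧ l % 3 = 1), (1 : ℝ) / l -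
    ∑ l ∈ (Icc 1 N).filter (fun l => l.Prime ∧ l % 3 = 2), (1 : ℝ) / l := by
  unfold T
  rw [Finset.sum_filter, Finset.sum_filter, ← Finset.sum_sub_distrib]
  have e : Ioc 0 N = Icc 1 N := by ext; simp [Nat.succ_le_iff]
  rw [e]
  refine Finset.sum_congr rfl fun n hn => ?_
  unfold f w th
  by_cases hp : n.Prime
  · have h1 : (1 : ℝ) < n := by exact_mod_cast hp.one_lt
    have hl : Real.log n ≠ 0 := (Real.log_pos h1).ne'
    have hn0 : (n : ℝ) ≠ 0 := by linarith
    have c : Real.log n * (1 / ((n : ℝ) * Real.log n)) = 1 / n := by field_simp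
    simp only [hp, if_true, true_and]
    rw [sub_mul]
    congr 1
    · split_ifs
      · exact c
      · exact zero_mul _
    · split_ifs
      · exact c
      · exact zero_mul _
  · simp [hp]

private lemma S_eq {N : ℕ} (hN : 3 ≤ N) : ∑ l ∈ (Icc 1 N).filter Nat.Prime, (1 : ℝ) / l =
    ∑ l ∈ (Icc 1 N).filter (fun l => l.Prime ∧ l % 3 = 1), (1 : ℝ) / l +
    ∑ l ∈ (Icc 1 N).filter (fun l => l.Prime ∧ l % 3 = 2), (1 : ℝ) / l + 1 / 3 := by
  have e3 : (1 : ℝ) / 3 = ∑ l ∈ Icc 1 N, if l = 3 then (1 : ℝ) / l else 0 := by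
    rw [Finset.sum_ite_eq' (Icc 1 N) 3, if_pos (by simp; omega)]
    norm_num
  rw [Finset.sum_filter, Finset.sum_filter, Finset.sum_filter, e3, ← Finset.sum_add_distrib,
    ← Finset.sum_add_distrib]
  refine Finset.sum_congr rfl fun n _ => ?_
  by_cases hp : n.Prime
  · have h3 : n % 3 = 0 → n = 3 := fun h => by
      have : 3 ∣ n := Nat.dvd_of_mod_eq_zero h
      exact ((Nat.prime_dvd_prime_iff_eq Nat.prime_three hp).1 this).symm
    simp only [hp, if_true, true_and]
    have hc : n % 3 = 0 ∨ n % 3 = 1 ∨ n % 3 = 2 := by omega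
    rcases hc with h | h | h
    · have := h3 h
      subst this
      norm_num
    · have hne : n ≠ 3 := by omega
      simp [h, hne]
    · have hne : n ≠ 3 := by omega
      simp [h, hne]
  · have hne : n ≠ 3 := by
      rintro rfl
      exact hp Nat.prime_three
    simp [hp, hne]

/-- Module MR4. -/
theorem hMR4 (hS : Pool.Agent.Helper48.BK.StSW) : StMR4 := by
  obtain ⟨C₁, hC₁, h1⟩ := T_bdd hS
  obtain ⟨C₂, hC₂, h2⟩ := Pool.Agent.Helper15.AB.hMT
  refine ⟨C₁ + C₂ + 1, by linarith, fun y hy => ?_⟩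
  have hN : 3 ≤ ⌊y⌋₊ := Nat.le_floor (by exact_mod_cast hy)
  have a := h1 ⌊y⌋₊
  have b := h2 y hy
  rw [T_eq] at a
  rw [S_eq hN] at b
  rw [abs_le] at a b
  linarith [a.1, a.2, b.1, b.2]

end Pool.Agent.Helper85.LQ
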